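import Pool.Agent.T2H24.GR.Dense

set_option autoImplicit false
set_option linter.unusedSectionVars false
set_option linter.unusedVariables false

/-!
# Bessel's inequality for averages over primes, uniformly
-/

namespace Pool.Agent.T2H24.AT

open Filter Topology ComplexConjugate MeasureTheory NumberField IsDedekindDomain
  Pool.Agent.TH553.RS Pool.Agent.TH553.ST Pool.Agent.W540.BE Pool.Agent.T2H24.GR

section

variable {K : Type} [Field K] [NumberField K]

theorem mn_add (F F' : HeightOneSpectrum (𝓞 K) → ℂ) (N : ℕ) :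
    mn (fun v => F v + F' v) N = mn F N + mn F' N := by
  unfold mn
  rw [Finset.sum_add_distrib, smul_add]

theorem mn_sub (F F' : HeightOneSpectrum (𝓞 K) → ℂ) (N : ℕ) :
    mn (fun v => F v - F' v) N = mn F N - mn F' N := by
  unfold mn
  rw [Finset.sum_sub_distrib, smul_sub]

theorem mn_conj (F : HeightOneSpectrum (𝓞 K) → ℂ) (N : ℕ) :
    mn (fun v => conj (F v)) N = conj (mn F N) := by
  unfold mn
  rw [← map_sum, Complex.real_smul, Complex.real_smul, map_mul, Complex.conj_ofReal]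

theorem mn_norm_le {F : HeightOneSpectrum (𝓞 K) → ℂ} {D : ℝ} (hD : 0 ≤ D) (h : ∀ v, ‖F v‖ ≤ D)
    (N : ℕ) : ‖mn F N‖ ≤ D := by
  have h1 := mn_sub_le (F := F) (F' := fun _ => 0) (ε := D) (fun v => by
    rw [sub_zero]
    exact h v) hD N
  have h2 : mn (fun _ : HeightOneSpectrum (𝓞 K) => (0 : ℂ)) N = 0 := by
    unfold mn
    simp
  rwa [h2, sub_zero] at h1

theorem mn_re_nonneg {F : HeightOneSpectrum (𝓞 K) → ℂ} (h : ∀ v, 0 ≤ (F v).re) (N : ℕ) :
    0 ≤ (mn F N).re := by
  rw [re_mn]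
  unfold mn
  rw [smul_eq_mul]
  exact mul_nonneg (by positivity) (Finset.sum_nonneg fun v _ => h v)

theorem mn_const (c : ℂ) : Tendsto (mn fun _ : HeightOneSpectrum (𝓞 K) => c) atTop (𝓝 c) := by
  refine tendsto_const_nhds.congr' ?_
  filter_upwards [card_ev (K := K)] with N hN
  unfold mn
  rw [Finset.sum_const, ← Nat.cast_smul_eq_nsmul ℝ, smul_smul, inv_mul_cancel₀ hN, one_smul]

/-- **Bessel's inequality** for almost orthonormal functions, uniformly. -/
theorem bess {J : Type} [Fintype J] [DecidableEq J] {u : J → HeightOneSpectrum (𝓞 K) → ℂ}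
    (h : ∀ l m, Tendsto (mn fun v => u l v * conj (u m v)) atTop (𝓝 (if l = m then 1 else 0)))
    {D : ℝ} (hD : 0 ≤ D) : ∀ᶠ N in atTop, ∀ g : HeightOneSpectrum (𝓞 K) → ℂ, (∀ v, ‖g v‖ ≤ D) →
      ∑ l, ‖mn (fun v => g v * conj (u l v)) N‖ ^ 2 ≤ D ^ 2 + 1 := by
  set E : J → J → ℕ → ℂ := fun l m N => mn (fun v => u l v * conj (u m v)) N -
    (if l = m then 1 else 0) with hE
  have hEl : ∀ l m, Tendsto (E l m) atTop (𝓝 0) := by
    intro l m
    have := (h l m).sub_const (if l = m then (1 : ℂ) else 0)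
    rwa [sub_self] at this
  have hEs : Tendsto (fun N => ∑ l, ∑ m, ‖E l m N‖) atTop (𝓝 0) := by
    have h1 : Tendsto (fun N => ∑ l, ∑ m, ‖E l m N‖) atTop (𝓝 (∑ _l : J, ∑ _m : J, (0 : ℝ))) := by
      refine tendsto_finsetSum _ fun l _ => tendsto_finsetSum _ fun m _ => ?_
      have := (hEl l m).norm
      rwa [norm_zero] at this
    simpa using h1
  have hpos : (0 : ℝ) < 1 / (D ^ 2 + 2) := by positivity
  filter_upwards [hEs.eventually_lt_const hpos] with N hN g hg
  set c : J → ℂ := fun l => mn (fun v => g v * conj (u l v)) N with hc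
  set S : ℝ := ∑ l, ‖c l‖ ^ 2 with hS
  have hS0 : 0 ≤ S := Finset.sum_nonneg fun l _ => by positivity
  have h1 : 0 ≤ (mn (fun v => (g v - ∑ l, c l * u l v) * conj (g v - ∑ l, c l * u l v)) N).re :=
    mn_re_nonneg (fun v => by
      rw [Complex.mul_conj]
      exact Complex.normSq_nonneg _) N
  have e1 : (fun v => (g v - ∑ l, c l * u l v) * conj (g v - ∑ l, c l * u l v)) = fun v =>
      ((g v * conj (g v) - ∑ l, conj (c l) * (g v * conj (u l v))) -
        ∑ l, c l * conj (g v * conj (u l v))) +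
        ∑ l, ∑ m, (c l * conj (c m)) * (u l v * conj (u m v)) := by
    funext v
    have e2 : ∑ l, ∑ m, (c l * conj (c m)) * (u l v * conj (u m v)) =
        (∑ l, c l * u l v) * ∑ m, conj (c m * u m v) := by
      rw [Finset.sum_mul_sum]
      refine Finset.sum_congr rfl fun l _ => Finset.sum_congr rfl fun m _ => ?_
      rw [map_mul]
      ring
    have e3 : ∑ l, conj (c l) * (g v * conj (u l v)) = g v * ∑ m, conj (c m * u m v) := by
      rw [Finset.mul_sum]
      refine Finset.sum_congr rfl fun l _ => ?_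
      rw [map_mul]
      ring
    have e4 : ∑ l, c l * conj (g v * conj (u l v)) = conj (g v) * ∑ l, c l * u l v := by
      rw [Finset.mul_sum]
      refine Finset.sum_congr rfl fun l _ => ?_
      rw [map_mul, Complex.conj_conj]
      ring
    rw [e2, e3, e4, map_sub, map_sum]
    ring
  rw [e1, mn_add, mn_sub, mn_sub, mn_sum, mn_sum, mn_sum] at h1
  simp only [mn_sum, mn_mul, mn_conj] at h1
  have e5 : ∀ l, mn (fun v => g v * conj (u l v)) N = c l := fun l => rfl
  have e6 : ∀ l m, mn (fun v => u l v * conj (u m v)) N = (if l = m then 1 else 0) + E l m N :=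
    fun l m => by
      rw [hE]
      ring
  simp only [e5, e6] at h1
  have e7 : ∑ l, conj (c l) * c l = (S : ℂ) := by
    rw [hS]
    push_cast
    refine Finset.sum_congr rfl fun l _ => ?_
    rw [mul_comm, Complex.mul_conj, Complex.normSq_eq_norm_sq]
    push_cast
    rfl
  have e8 : ∑ l, c l * conj (c l) = (S : ℂ) := by
    rw [← e7]
    exact Finset.sum_congr rfl fun l _ => mul_comm _ _
  have e9 : ∑ l, ∑ m, (c l * conj (c m)) * ((if l = m then 1 else 0) + E l m N) =
      (S : ℂ) + ∑ l, ∑ m, (c l * conj (c m)) * E l m N := by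
    rw [← e8, ← Finset.sum_add_distrib]
    refine Finset.sum_congr rfl fun l _ => ?_
    simp only [mul_add, Finset.sum_add_distrib, mul_ite, mul_one, mul_zero, Finset.sum_ite_eq,
      Finset.mem_univ, if_true]
  rw [e7, e8, e9] at h1
  have h2 : (mn (fun v => g v * conj (g v)) N).re ≤ D ^ 2 := by
    refine (Complex.re_le_norm _).trans (mn_norm_le (by positivity) (fun v => ?_) N)
    rw [norm_mul, Complex.norm_conj, ← sq]
    exact pow_le_pow_left₀ (norm_nonneg _) (hg v) 2
  have h3 : (∑ l, ∑ m, (c l * conj (c m)) * E l m N).re ≤ S * (1 / (D ^ 2 + 2)) := by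
    refine (Complex.re_le_norm _).trans ((norm_sum_le _ _).trans ?_)
    have h4 : ∀ l, ‖c l‖ ^ 2 ≤ S := fun l =>
      Finset.single_le_sum (f := fun l => ‖c l‖ ^ 2) (fun l _ => by positivity) (Finset.mem_univ l)
    have h5 : ∀ l m, ‖c l‖ * ‖c m‖ ≤ S := fun l m => by
      nlinarith [h4 l, h4 m, sq_nonneg (‖c l‖ - ‖c m‖)]
    calc ∑ l, ‖∑ m, (c l * conj (c m)) * E l m N‖ ≤ ∑ l, ∑ m, S * ‖E l m N‖ := by
          refine Finset.sum_le_sum fun l _ => (norm_sum_le _ _).trans
            (Finset.sum_le_sum fun m _ => ?_)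
          rw [norm_mul, norm_mul, Complex.norm_conj]
          exact mul_le_mul_of_nonneg_right (h5 l m) (norm_nonneg _)
      _ = S * ∑ l, ∑ m, ‖E l m N‖ := by
          rw [Finset.mul_sum]
          exact Finset.sum_congr rfl fun l _ => (Finset.mul_sum _ _ _).symm
      _ ≤ S * (1 / (D ^ 2 + 2)) := mul_le_mul_of_nonneg_left hN.le hS0
  simp only [Complex.sub_re, Complex.add_re, Complex.ofReal_re] at h1
  have h6 : S * (1 - 1 / (D ^ 2 + 2)) ≤ D ^ 2 := by linarith
  have h7 : (0 : ℝ) < D ^ 2 + 2 := by positivity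
  have h8 : 1 - 1 / (D ^ 2 + 2) = (D ^ 2 + 1) / (D ^ 2 + 2) := by
    field_simp
    ring
  rw [h8, ← mul_div_assoc, div_le_iff₀ h7] at h6
  have h9 : S * (D ^ 2 + 1) ≤ (D ^ 2 + 1) * (D ^ 2 + 1) := by nlinarith
  exact le_of_mul_le_mul_right h9 (by positivity)

end

end Pool.Agent.T2H24.AT
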