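import Pool.Agent.T2H24.AT.Bess
import Pool.Agent.T2H24.FC.Kern

set_option autoImplicit false
set_option linter.unusedSectionVars false
set_option linter.unusedVariables false

/-!
# The number of exceptional tuples
-/

namespace Pool.Agent.T2H24.AT

open Filter Topology ComplexConjugate MeasureTheory NumberField IsDedekindDomain
  Pool.Agent.TH553.RS Pool.Agent.TH553.ST Pool.Agent.W540.BE Pool.Agent.T2H24.GR

section

variable {G : Type} [Group G] [TopologicalSpace G] [IsTopologicalGroup G] [CompactSpace G]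
  [MeasurableSpace G] [BorelSpace G] {μ : Measure G} [IsProbabilityMeasure μ] [μ.IsHaarMeasure]

/-- pairwise independence -/
def PW (μ : Measure G) {K : Type} [Field K] [NumberField K] {J : Type}
    (x : J → HeightOneSpectrum (𝓞 K) → G) : Prop :=
  ∀ π : Irr G, (∃ g, π.ρ g ≠ 1) →
    (∀ l : J, Tendsto (mn fun v => π.c (x l v) * conj (π.c (x l v))) atTop (𝓝 1)) ∧
    ∀ l m : J, l ≠ m → Tendsto (mn fun v => π.c (x l v) * conj (π.c (x m v))) atTop (𝓝 0)

/-- the exceptional tuples for a product of characters -/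
theorem count_char {k : ℕ} (r : Fin k → Irr G) {i₀ : Fin k} (hnt : ∃ g, (r i₀).ρ g ≠ 1) {δ : ℝ}
    (hδ : 0 < δ) : ∃ B : ℕ, ∀ (K : Type) [Field K] [NumberField K] (J : Type) [Fintype J]
      (x : J → HeightOneSpectrum (𝓞 K) → G), PW μ x → ∀ᶠ N in atTop,
        Nat.card {t : Fin k → J // δ ≤ ‖mn (fun v => ∏ i, (r i).c (x (t i) v)) N‖} ≤
          B * Fintype.card J ^ (k - 1) := by
  classical
  set D : ℝ := ∏ i ∈ Finset.univ.erase i₀, ((r i).n : ℝ) with hDd
  have hD : 0 ≤ D := Finset.prod_nonneg fun i _ => Nat.cast_nonneg _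
  refine ⟨⌊(D ^ 2 + 1) / δ ^ 2⌋₊, ?_⟩
  intro K _ _ J _ x hx
  have hb := bess (u := fun l v => conj ((r i₀).c (x l v))) (fun l m => by
    have h1 : Tendsto (mn fun v => (r i₀).c (x m v) * conj ((r i₀).c (x l v))) atTop
        (𝓝 (if l = m then 1 else 0)) := by
      split_ifs with h
      · subst h
        exact (hx (r i₀) hnt).1 l
      · exact (hx (r i₀) hnt).2 m l (Ne.symm h)
    refine h1.congr fun N => ?_
    congr 1
    funext v
    rw [Complex.conj_conj]
    ring) hD
  filter_upwards [hb] with N hN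
  have hcard : Nat.card {t : Fin k → J // δ ≤ ‖mn (fun v => ∏ i, (r i).c (x (t i) v)) N‖} =
      (Finset.univ.filter fun t : Fin k → J =>
        δ ≤ ‖mn (fun v => ∏ i, (r i).c (x (t i) v)) N‖).card := by
    rw [Nat.card_eq_fintype_card, Fintype.card_subtype]
  rw [hcard]
  set A := Finset.univ.filter fun t : Fin k → J =>
    δ ≤ ‖mn (fun v => ∏ i, (r i).c (x (t i) v)) N‖ with hA
  have h1 := Finset.card_le_mul_card_image (f := fun (t : Fin k → J) (i : {i // i ≠ i₀}) => t i.1) A
    ⌊(D ^ 2 + 1) / δ ^ 2⌋₊ (fun s hs => by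
      obtain ⟨t₀, -, ht₀⟩ := Finset.mem_image.1 hs
      -- the function of the other coordinates
      set g : HeightOneSpectrum (𝓞 K) → ℂ := fun v =>
        ∏ i ∈ Finset.univ.erase i₀, (r i).c (x (t₀ i) v) with hg
      have hgD : ∀ v, ‖g v‖ ≤ D := by
        intro v
        rw [hg, hDd]
        simp only [norm_prod]
        exact Finset.prod_le_prod (fun i _ => norm_nonneg _) fun i _ =>
          Pool.Agent.T2H24.FC.norm_c_le _ _
      have h2 := hN g hgD
      have h3 : ∀ t ∈ A.filter (fun t => (fun (i : {i // i ≠ i₀}) => t i.1) = s),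
          δ ≤ ‖mn (fun v => g v * conj (conj ((r i₀).c (x (t i₀) v)))) N‖ ∧
            ∀ i, i ≠ i₀ → t i = t₀ i := by
        intro t ht
        obtain ⟨ht1, ht2⟩ := Finset.mem_filter.1 ht
        have ht3 := (Finset.mem_filter.1 ht1).2
        have h4 : ∀ i, i ≠ i₀ → t i = t₀ i := by
          intro i hi
          have := congrFun (ht2.trans ht₀.symm) ⟨i, hi⟩
          exact this
        refine ⟨?_, h4⟩
        refine ht3.trans (le_of_eq ?_)
        congr 2
        funext v
        rw [Complex.conj_conj, hg, ← Finset.mul_prod_erase Finset.univ _ (Finset.mem_univ i₀),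
          mul_comm]
        congr 1
        refine Finset.prod_congr rfl fun i hi => ?_
        rw [h4 i (Finset.ne_of_mem_erase hi)]
      have h5 : (A.filter (fun t => (fun (i : {i // i ≠ i₀}) => t i.1) = s)).card ≤
          (Finset.univ.filter fun l : J =>
            δ ≤ ‖mn (fun v => g v * conj (conj ((r i₀).c (x l v)))) N‖).card := by
        refine Finset.card_le_card_of_injOn (fun t => t i₀) (fun t ht => ?_) ?_
        · exact Finset.mem_coe.2 (Finset.mem_filter.2 ⟨Finset.mem_univ _, (h3 t ht).1⟩)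
        · intro t ht t' ht' htt
          funext i
          by_cases hi : i = i₀
          · rw [hi]
            exact htt
          · rw [(h3 t (Finset.mem_coe.1 ht)).2 i hi, (h3 t' (Finset.mem_coe.1 ht')).2 i hi]
      refine h5.trans (Nat.le_floor ?_)
      rw [le_div_iff₀ (by positivity)]
      calc ((Finset.univ.filter fun l : J =>
            δ ≤ ‖mn (fun v => g v * conj (conj ((r i₀).c (x l v)))) N‖).card : ℝ) * δ ^ 2
          = ∑ l ∈ Finset.univ.filter (fun l : J =>
              δ ≤ ‖mn (fun v => g v * conj (conj ((r i₀).c (x l v)))) N‖), δ ^ 2 := by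
            rw [Finset.sum_const, nsmul_eq_mul]
        _ ≤ ∑ l ∈ Finset.univ.filter (fun l : J =>
              δ ≤ ‖mn (fun v => g v * conj (conj ((r i₀).c (x l v)))) N‖),
              ‖mn (fun v => g v * conj (conj ((r i₀).c (x l v)))) N‖ ^ 2 := by
            refine Finset.sum_le_sum fun l hl => ?_
            exact pow_le_pow_left₀ hδ.le (Finset.mem_filter.1 hl).2 2
        _ ≤ ∑ l, ‖mn (fun v => g v * conj (conj ((r i₀).c (x l v)))) N‖ ^ 2 :=
            Finset.sum_le_sum_of_subset_of_nonneg (Finset.filter_subset _ _)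
              fun l _ _ => by positivity
        _ ≤ D ^ 2 + 1 := h2)
  refine h1.trans (Nat.mul_le_mul_left _ ?_)
  refine (Finset.card_le_univ _).trans (le_of_eq ?_)
  rw [Fintype.card_fun, Fintype.card_subtype_compl, Fintype.card_subtype_eq, Fintype.card_fin]

variable [SecondCountableTopology G] [T2Space G]

/-- the exceptional tuples for a class function -/
theorem count_f {k : ℕ} {f : (Fin k → G) → ℂ} (hf : Continuous f)
    (hcl : ∀ g h, f (h * g * h⁻¹) = f g) {δ : ℝ} (hδ : 0 < δ) : ∃ B : ℕ,
      ∀ (K : Type) [Field K] [NumberField K] (J : Type) [Fintype J]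
      (x : J → HeightOneSpectrum (𝓞 K) → G), PW μ x → ∀ᶠ N in atTop,
        Nat.card {t : Fin k → J // δ ≤ ‖mn (fun v => f fun i => x (t i) v) N -
          ∫ g, f g ∂(Measure.pi fun _ => μ)‖} ≤ B * Fintype.card J ^ (k - 1) := by
  classical
  obtain ⟨L, _, r, a, hra⟩ := classN (fun _ : Fin k => μ) hf hcl
    (ε := δ / 8) (by positivity)
  set A : ℝ := ∑ l, ‖a l‖ with hA
  have hA0 : 0 ≤ A := Finset.sum_nonneg fun l _ => norm_nonneg _
  set η : ℝ := δ / (2 * (A + 1)) with hη
  have hη0 : 0 < η := by positivity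
  -- one term
  have hone : ∀ l : L, ∃ B : ℕ, ∀ (K : Type) [Field K] [NumberField K] (J : Type) [Fintype J]
      (x : J → HeightOneSpectrum (𝓞 K) → G), PW μ x → ∀ᶠ N in atTop,
        Nat.card {t : Fin k → J // η ≤ ‖mn (fun v => ∏ i, (r l i).c (x (t i) v)) N -
          ∏ i, ∫ g, (r l i).c g ∂μ‖} ≤ B * Fintype.card J ^ (k - 1) := by
    intro l
    by_cases hnt : ∃ i₀, ∃ g, (r l i₀).ρ g ≠ 1
    · obtain ⟨i₀, hg⟩ := hnt
      obtain ⟨B, hB⟩ := count_char (μ := μ) (r l) hg hη0
      refine ⟨B, fun K _ _ J _ x hx => ?_⟩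
      have h0 : ∏ i, ∫ g, (r l i).c g ∂μ = 0 :=
        Finset.prod_eq_zero (Finset.mem_univ i₀) (int_chi (r l i₀).cont (r l i₀).schur hg)
      simp only [h0, sub_zero]
      exact hB K J x hx
    · push Not at hnt
      refine ⟨0, fun K _ _ J _ x hx => ?_⟩
      have h2 : ∀ i g, (r l i).c g = ((r l i).n : ℂ) := fun i g => chi_triv (hnt i) g
      have h3 : ∏ i, ∫ g, (r l i).c g ∂μ = ∏ i, ((r l i).n : ℂ) := by
        refine Finset.prod_congr rfl fun i _ => ?_
        simp only [h2]
        simp
      have h4 := (mn_const (K := K) (∏ i, ((r l i).n : ℂ))).sub_const (∏ i, ((r l i).n : ℂ))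
      rw [sub_self] at h4
      have h5 := h4.norm.eventually_lt_const (by rw [norm_zero]; exact hη0)
      filter_upwards [h5] with N hN
      have h6 : IsEmpty {t : Fin k → J // η ≤ ‖mn (fun v => ∏ i, (r l i).c (x (t i) v)) N -
          ∏ i, ∫ g, (r l i).c g ∂μ‖} := by
        refine ⟨?_⟩
        rintro ⟨t, h7⟩
        rw [h3] at h7
        simp only [h2] at h7
        exact absurd hN (not_lt.2 h7)
      rw [Nat.card_of_isEmpty]
      exact Nat.zero_le _
  choose B hB using hone
  refine ⟨∑ l, B l, fun K _ _ J _ x hx => ?_⟩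
  have h1 : ∀ᶠ N in atTop, ∀ l : L, Nat.card {t : Fin k → J // η ≤
      ‖mn (fun v => ∏ i, (r l i).c (x (t i) v)) N - ∏ i, ∫ g, (r l i).c g ∂μ‖} ≤
        B l * Fintype.card J ^ (k - 1) := by
    rw [eventually_all]
    exact fun l => hB l K J x hx
  filter_upwards [h1] with N hN
  set F : (Fin k → G) → ℂ := fun g => ∑ l, a l * ∏ i, (r l i).c (g i) with hF
  have hFc : Continuous F := continuous_finsetSum _ fun l _ => continuous_const.mul
    (continuous_finsetProd _ fun i _ => (r l i).cc.comp (continuous_apply i))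
  have hIF : ∫ g, F g ∂(Measure.pi fun _ => μ) = ∑ l, a l * ∏ i, ∫ g, (r l i).c g ∂μ := by
    rw [hF, integral_finsetSum _ fun l _ => ?_]
    · refine Finset.sum_congr rfl fun l _ => ?_
      rw [integral_const_mul]
      congr 1
      exact int_prod (μ := fun _ : Fin k => μ) Finset.univ fun i g => (r l i).c g
    · exact (continuous_const.mul (continuous_finsetProd _ fun i _ =>
        (r l i).cc.comp (continuous_apply i))).integrable_of_hasCompactSupport
          (HasCompactSupport.of_compactSpace _)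
  have hclose : ‖(∫ g, f g ∂(Measure.pi fun _ => μ)) - ∫ g, F g ∂(Measure.pi fun _ => μ)‖ ≤
      δ / 8 := by
    have i1 : Integrable f (Measure.pi fun _ : Fin k => μ) :=
      hf.integrable_of_hasCompactSupport (HasCompactSupport.of_compactSpace _)
    have i2 : Integrable F (Measure.pi fun _ : Fin k => μ) :=
      hFc.integrable_of_hasCompactSupport (HasCompactSupport.of_compactSpace _)
    rw [← integral_sub i1 i2]
    have h5 := norm_integral_le_of_norm_le_const (μ := Measure.pi fun _ : Fin k => μ)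
      (f := fun g => f g - F g) (C := δ / 8) (Eventually.of_forall hra)
    simpa using h5
  have hsub : (Finset.univ.filter fun t : Fin k → J => δ ≤ ‖mn (fun v => f fun i => x (t i) v) N -
      ∫ g, f g ∂(Measure.pi fun _ => μ)‖) ⊆ Finset.univ.biUnion fun l : L =>
        Finset.univ.filter fun t : Fin k → J => η ≤
          ‖mn (fun v => ∏ i, (r l i).c (x (t i) v)) N - ∏ i, ∫ g, (r l i).c g ∂μ‖ := by
    intro t ht
    have ht' := (Finset.mem_filter.1 ht).2
    by_contra hcon
    rw [Finset.mem_biUnion] at hcon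
    push Not at hcon
    have h2 : ∀ l, ‖mn (fun v => ∏ i, (r l i).c (x (t i) v)) N - ∏ i, ∫ g, (r l i).c g ∂μ‖ < η := by
      intro l
      have h3 := hcon l (Finset.mem_univ l)
      rw [Finset.mem_filter] at h3
      push Not at h3
      exact h3 (Finset.mem_univ t)
    have h3 : ‖mn (fun v => f fun i => x (t i) v) N - mn (fun v => F fun i => x (t i) v) N‖ ≤
        δ / 8 := mn_sub_le (fun v => hra _) (by positivity) N
    have h4 : ‖mn (fun v => F fun i => x (t i) v) N - ∫ g, F g ∂(Measure.pi fun _ => μ)‖ ≤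
        A * η := by
      have e1 : mn (fun v => F fun i => x (t i) v) N =
          ∑ l, a l * mn (fun v => ∏ i, (r l i).c (x (t i) v)) N := by
        rw [hF]
        simp only [mn_sum, mn_mul]
      rw [e1, hIF, ← Finset.sum_sub_distrib, hA, Finset.sum_mul]
      refine (norm_sum_le _ _).trans (Finset.sum_le_sum fun l _ => ?_)
      rw [← mul_sub, norm_mul]
      exact mul_le_mul_of_nonneg_left (h2 l).le (norm_nonneg _)
    have h5 : A * η ≤ δ / 2 := by
      rw [hη, ← mul_div_assoc, div_le_div_iff₀ (by positivity) (by positivity)]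
      nlinarith
    have e2 : mn (fun v => f fun i => x (t i) v) N - ∫ g, f g ∂(Measure.pi fun _ => μ) =
        (mn (fun v => f fun i => x (t i) v) N - mn (fun v => F fun i => x (t i) v) N) +
        (mn (fun v => F fun i => x (t i) v) N - ∫ g, F g ∂(Measure.pi fun _ => μ)) -
        ((∫ g, f g ∂(Measure.pi fun _ => μ)) - ∫ g, F g ∂(Measure.pi fun _ => μ)) := by
      ring
    rw [e2] at ht'
    have h6 := (norm_sub_le ((mn (fun v => f fun i => x (t i) v) N -
      mn (fun v => F fun i => x (t i) v) N) +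
        (mn (fun v => F fun i => x (t i) v) N - ∫ g, F g ∂(Measure.pi fun _ => μ)))
      ((∫ g, f g ∂(Measure.pi fun _ => μ)) - ∫ g, F g ∂(Measure.pi fun _ => μ)))
    have h7 := norm_add_le (mn (fun v => f fun i => x (t i) v) N -
      mn (fun v => F fun i => x (t i) v) N)
        (mn (fun v => F fun i => x (t i) v) N - ∫ g, F g ∂(Measure.pi fun _ => μ))
    linarith
  have hc : ∀ (p : (Fin k → J) → Prop), Nat.card {t : Fin k → J // p t} =
      (Finset.univ.filter p).card := by
    intro p
    rw [Nat.card_eq_fintype_card, Fintype.card_subtype]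
  rw [hc]
  refine (Finset.card_le_card hsub).trans (Finset.card_biUnion_le.trans ?_)
  rw [Finset.sum_mul]
  refine Finset.sum_le_sum fun l _ => ?_
  have h8 := hN l
  rw [hc] at h8
  exact h8

end

end Pool.Agent.T2H24.AT
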