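import Pool.Agent.T2H24.AT.Count

set_option autoImplicit false
set_option linter.unusedSectionVars false
set_option linter.unusedVariables false

/-!
# The mean square over all tuples, and compact sets of class functions
-/

namespace Pool.Agent.T2H24.AT

open Filter Topology ComplexConjugate MeasureTheory NumberField IsDedekindDomain
  Pool.Agent.TH553.RS Pool.Agent.TH553.ST Pool.Agent.W540.BE Pool.Agent.T2H24.GR

section

variable {G : Type} [Group G] [TopologicalSpace G] [IsTopologicalGroup G] [CompactSpace G]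
  [MeasurableSpace G] [BorelSpace G] {μ : Measure G} [IsProbabilityMeasure μ] [μ.IsHaarMeasure]

/-- the mean square -/
theorem sum_char {k : ℕ} (r : Fin k → Irr G) {i₀ : Fin k} (hnt : ∃ g, (r i₀).ρ g ≠ 1)
    (hn : ∀ i, (r i).n ≠ 0) {K : Type} [Field K] [NumberField K] {J : Type} [Fintype J]
    {x : J → HeightOneSpectrum (𝓞 K) → G} (hx : PW μ x) : ∀ᶠ N in atTop,
      ∑ t : Fin k → J, ‖mn (fun v => ∏ i, (r i).c (x (t i) v)) N‖ ^ 2 ≤
        ((∏ i, ((r i).n : ℝ) ^ 2) + 1) * (Fintype.card J : ℝ) ^ (k - 1) := by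
  classical
  set D : ℝ := ∏ i ∈ Finset.univ.erase i₀, ((r i).n : ℝ) with hDd
  have hD : 0 ≤ D := Finset.prod_nonneg fun i _ => Nat.cast_nonneg _
  have hD2 : D ^ 2 ≤ ∏ i, ((r i).n : ℝ) ^ 2 := by
    rw [← Finset.mul_prod_erase Finset.univ _ (Finset.mem_univ i₀), hDd, ← Finset.prod_pow]
    refine le_mul_of_one_le_left (Finset.prod_nonneg fun i _ => by positivity) ?_
    have : 1 ≤ (r i₀).n := Nat.one_le_iff_ne_zero.2 (hn i₀)
    have h1 : (1 : ℝ) ≤ (r i₀).n := by exact_mod_cast this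
    nlinarith
  have hb := bess (u := fun l v => conj ((r i₀).c (x l v))) (fun l m => by
    have h1 : Tendsto (mn fun v => (r i₀).c (x m v) * conj ((r i₀).c (x l v))) atTop
        (𝓝 (if l = m then 1 else 0)) := by
      split_ifs with h
      · subst h
        exact (hx (r i₀) hnt).1 l
      · exact (hx (r i₀) hnt).2 m l (Ne.symm h)
    refine h1.congr fun N => ?_
    congr 1
    funext v
    rw [Complex.conj_conj]
    ring) hD
  filter_upwards [hb] with N hN
  have h1 : ∑ t : Fin k → J, ‖mn (fun v => ∏ i, (r i).c (x (t i) v)) N‖ ^ 2 =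
      ∑ s : ({i // i ≠ i₀} → J), ∑ l : J, ‖mn (fun v =>
        (∏ i ∈ Finset.univ.erase i₀, (r i).c (x (if h : i ≠ i₀ then s ⟨i, h⟩ else l) v)) *
          (r i₀).c (x l v)) N‖ ^ 2 := by
    rw [Finset.sum_comm, ← Fintype.sum_prod_type']
    refine Fintype.sum_equiv (Equiv.piSplitAt i₀ fun _ => J) _ _ fun t => ?_
    congr 3
    funext v
    rw [← Finset.mul_prod_erase Finset.univ _ (Finset.mem_univ i₀), mul_comm]
    congr 1
    refine Finset.prod_congr rfl fun i hi => ?_
    rw [dif_pos (Finset.ne_of_mem_erase hi)]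
    rfl
  rw [h1]
  have h2 : ∀ s : ({i // i ≠ i₀} → J), ∑ l : J, ‖mn (fun v =>
        (∏ i ∈ Finset.univ.erase i₀, (r i).c (x (if h : i ≠ i₀ then s ⟨i, h⟩ else l) v)) *
          (r i₀).c (x l v)) N‖ ^ 2 ≤ (∏ i, ((r i).n : ℝ) ^ 2) + 1 := by
    intro s
    by_cases hJ : Nonempty J
    · obtain ⟨l₀⟩ := hJ
      have h3 := hN (fun v => ∏ i ∈ Finset.univ.erase i₀,
        (r i).c (x (if h : i ≠ i₀ then s ⟨i, h⟩ else l₀) v)) (fun v => by
          rw [hDd]
          simp only [norm_prod]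
          exact Finset.prod_le_prod (fun i _ => norm_nonneg _) fun i _ =>
            Pool.Agent.T2H24.FC.norm_c_le _ _)
      refine le_trans (le_of_eq (Finset.sum_congr rfl fun l _ => ?_)) (h3.trans (by linarith))
      congr 3
      funext v
      rw [Complex.conj_conj]
      congr 1
      refine Finset.prod_congr rfl fun i hi => ?_
      rw [dif_pos (Finset.ne_of_mem_erase hi), dif_pos (Finset.ne_of_mem_erase hi)]
    · rw [not_nonempty_iff] at hJ
      rw [Finset.univ_eq_empty, Finset.sum_empty]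
      positivity
  refine (Finset.sum_le_sum fun s _ => h2 s).trans (le_of_eq ?_)
  rw [Finset.sum_const, Finset.card_univ, Fintype.card_fun, Fintype.card_subtype_compl,
    Fintype.card_subtype_eq, Fintype.card_fin, nsmul_eq_mul, mul_comm]
  push_cast
  ring

variable [SecondCountableTopology G] [T2Space G]

/-- **The number of exceptional tuples** -/
theorem count_all {k : ℕ} {𝒞 : Set C(Fin k → G, ℂ)} (h𝒞 : IsCompact 𝒞)
    (hcl : ∀ f ∈ 𝒞, ∀ g h, f (h * g * h⁻¹) = f g) {δ : ℝ} (hδ : 0 < δ) :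
    ∃ B : ℕ, ∀ (K : Type) [Field K] [NumberField K] (J : Type) [Fintype J]
      (x : J → HeightOneSpectrum (𝓞 K) → G), PW μ x → ∀ᶠ N in atTop,
        Nat.card {t : Fin k → J // ∃ f ∈ 𝒞, δ ≤ ‖mn (fun v => f fun i => x (t i) v) N -
          ∫ g, f g ∂(Measure.pi fun _ => μ)‖} ≤ B * Fintype.card J ^ (k - 1) := by
  classical
  obtain ⟨s, hs1, hs2, hs3⟩ := h𝒞.finite_cover_balls (e := δ / 4) (by linarith)
  have hone : ∀ f : C(Fin k → G, ℂ), ∃ B : ℕ, f ∈ 𝒞 → ∀ (K : Type) [Field K] [NumberField K]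
      (J : Type) [Fintype J] (x : J → HeightOneSpectrum (𝓞 K) → G), PW μ x → ∀ᶠ N in atTop,
        Nat.card {t : Fin k → J // δ / 2 ≤ ‖mn (fun v => f fun i => x (t i) v) N -
          ∫ g, f g ∂(Measure.pi fun _ => μ)‖} ≤ B * Fintype.card J ^ (k - 1) := by
    intro f
    by_cases hf : f ∈ 𝒞
    · obtain ⟨B, hB⟩ := count_f (μ := μ) f.continuous (hcl f hf) (half_pos hδ)
      exact ⟨B, fun _ => hB⟩
    · exact ⟨0, fun h => absurd h hf⟩
  choose B hB using hone
  refine ⟨∑ f ∈ hs2.toFinset, B f, fun K _ _ J _ x hx => ?_⟩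
  have h1 : ∀ᶠ N in atTop, ∀ f ∈ hs2.toFinset, Nat.card {t : Fin k → J // δ / 2 ≤
      ‖mn (fun v => f fun i => x (t i) v) N - ∫ g, f g ∂(Measure.pi fun _ => μ)‖} ≤
        B f * Fintype.card J ^ (k - 1) := by
    rw [Finset.eventually_all]
    intro f hf
    exact hB f (hs1 ((Set.Finite.mem_toFinset _).1 hf)) K J x hx
  filter_upwards [h1] with N hN
  have hint : ∀ f : C(Fin k → G, ℂ), Integrable f (Measure.pi fun _ : Fin k => μ) := fun f =>
    f.continuous.integrable_of_hasCompactSupport (HasCompactSupport.of_compactSpace _)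
  have hsub : (Finset.univ.filter fun t : Fin k → J => ∃ f ∈ 𝒞, δ ≤
      ‖mn (fun v => f fun i => x (t i) v) N - ∫ g, f g ∂(Measure.pi fun _ => μ)‖) ⊆
      hs2.toFinset.biUnion fun h => Finset.univ.filter fun t : Fin k → J => δ / 2 ≤
        ‖mn (fun v => h fun i => x (t i) v) N - ∫ g, h g ∂(Measure.pi fun _ => μ)‖ := by
    intro t ht
    obtain ⟨f, hf, hfδ⟩ := (Finset.mem_filter.1 ht).2
    obtain ⟨h, hh, hfh⟩ := Set.mem_iUnion₂.1 (hs3 hf)
    rw [Finset.mem_biUnion]
    refine ⟨h, (Set.Finite.mem_toFinset _).2 hh, Finset.mem_filter.2 ⟨Finset.mem_univ _, ?_⟩⟩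
    have h2 : ∀ g, ‖f g - h g‖ ≤ δ / 4 := fun g => by
      have h3 : dist f h < δ / 4 := hfh
      have h4 := ContinuousMap.dist_apply_le_dist (f := f) (g := h) g
      rw [dist_eq_norm] at h4
      exact h4.trans h3.le
    have h3 : ‖mn (fun v => f fun i => x (t i) v) N - mn (fun v => h fun i => x (t i) v) N‖ ≤
        δ / 4 := mn_sub_le (fun v => h2 _) (by linarith) N
    have h4 : ‖(∫ g, f g ∂(Measure.pi fun _ => μ)) - ∫ g, h g ∂(Measure.pi fun _ => μ)‖ ≤
        δ / 4 := by
      rw [← integral_sub (hint f) (hint h)]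
      have h5 := norm_integral_le_of_norm_le_const (μ := Measure.pi fun _ : Fin k => μ)
        (f := fun g => f g - h g) (C := δ / 4) (Eventually.of_forall h2)
      simpa using h5
    have e1 : mn (fun v => f fun i => x (t i) v) N - ∫ g, f g ∂(Measure.pi fun _ => μ) =
        (mn (fun v => f fun i => x (t i) v) N - mn (fun v => h fun i => x (t i) v) N) +
          (mn (fun v => h fun i => x (t i) v) N - ∫ g, h g ∂(Measure.pi fun _ => μ)) -
          ((∫ g, f g ∂(Measure.pi fun _ => μ)) - ∫ g, h g ∂(Measure.pi fun _ => μ)) := by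
      ring
    have h5 : ‖mn (fun v => f fun i => x (t i) v) N - ∫ g, f g ∂(Measure.pi fun _ => μ)‖ ≤ δ / 4 +
        ‖mn (fun v => h fun i => x (t i) v) N - ∫ g, h g ∂(Measure.pi fun _ => μ)‖ + δ / 4 := by
      rw [e1]
      exact (norm_sub_le _ _).trans (add_le_add ((norm_add_le _ _).trans
        (add_le_add h3 le_rfl)) h4)
    linarith
  have hc : ∀ (p : (Fin k → J) → Prop), Nat.card {t : Fin k → J // p t} =
      (Finset.univ.filter p).card := by
    intro p
    rw [Nat.card_eq_fintype_card, Fintype.card_subtype]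
  rw [hc]
  refine (Finset.card_le_card hsub).trans (Finset.card_biUnion_le.trans ?_)
  rw [Finset.sum_mul]
  refine Finset.sum_le_sum fun f hf => ?_
  have h8 := hN f hf
  rw [hc] at h8
  exact h8

end

end Pool.Agent.T2H24.AT
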